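import Pool.Agent.H466.HP.Stm3
import Pool.Agent.H627.HP.QM

/-!
# HP QF: weak type bound for the part of `Q` from the zeros far from the line
-/

set_option autoImplicit false

namespace Pool.Agent.H670.HP

open Complex MeasureTheory Set Filter Topology
open Pool.Agent.H862.VK (Yz)
open Pool.Agent.H466.HP
open Pool.Agent.H627.HP

/-- the term of `QF` -/
noncomputable def qt (U X x t : ℝ) (b : ℂ) : ℝ := if X / 4 < |b.re| then q U x t b else 0

lemma qt_nonneg (U X x t : ℝ) (b : ℂ) : 0 ≤ qt U X x t b := by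
  unfold qt
  split_ifs
  · exact q_nonneg _ _ _ _
  · exact le_rfl

lemma qt_meas (U X x : ℝ) (b : ℂ) : Measurable (fun t => qt U X x t b) := by
  unfold qt
  by_cases h : X / 4 < |b.re|
  · simp only [if_pos h]
    exact q_meas _ _ _
  · simp only [if_neg h]
    exact measurable_const

lemma QF_le (U X x t : ℝ) :
    ENNReal.ofReal (QF U X x t) ≤ ∑' b : Zr, ENNReal.ofReal (qt U X x t b) := by
  have e : QF U X x t = ∑' b : Zr, qt U X x t b := rfl
  by_cases hs : Summable (fun b : Zr => qt U X x t b)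
  · rw [e, ENNReal.ofReal_tsum_of_nonneg (fun b => qt_nonneg _ _ _ _ _) hs]
  · rw [e, tsum_eq_zero_of_not_summable hs, ENNReal.ofReal_zero]
    exact zero_le

lemma q_mono {U U' : ℝ} (h : U ≤ U') (x t : ℝ) (b : ℂ) : q U x t b ≤ q U' x t b := by
  unfold q
  have hm := mu_nonneg b
  have h1 : Real.exp (U * |b.re|) ≤ Real.exp (U' * |b.re|) :=
    Real.exp_le_exp.2 (mul_le_mul_of_nonneg_right h (abs_nonneg _))
  gcongr

theorem qf (h1 : S_Z1) (h : S_EXPW) : S_QF := by
  have hcount := countable_Zr h1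
  obtain ⟨C1, hC1, hZ⟩ := h1
  obtain ⟨C, T0, hC, hT0, hE⟩ := h
  refine ⟨Real.pi * C + 256 * C1, T0, by positivity, hT0, fun T hT U X x Λ hU0 hU hX hx hx1 hΛ => ?_⟩
  have hT10 : 10 ≤ T := hT0.trans hT
  have hTpos : 0 < T := by linarith
  have hL1 : 1 ≤ Real.log T := by
    rw [Real.le_log_iff_exp_le hTpos]
    have := Real.exp_one_lt_three
    linarith
  set L := Real.log T with hL
  -- large `X`
  rcases le_or_gt 2 X with hX2 | hX2
  · have hempty : {t : ℝ | t ∈ Icc T (2 * T) ∧ Λ < QF U X x t} = ∅ := by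
      rw [eq_empty_iff_forall_notMem]
      rintro t ⟨-, ht⟩
      have e : QF U X x t = 0 := by
        unfold QF
        have h0 : ∀ b : Zr, (if X / 4 < |(b : ℂ).re| then
            mu b * Real.exp (U * |(b : ℂ).re|) * Real.exp (-((b : ℂ).im - t) ^ 2 / 2) /
              (x + |(b : ℂ).im - t|) ^ 2 else 0) = 0 := by
          intro b
          have := abs_re_lt b.2
          rw [if_neg (by linarith)]
        simp only [h0, tsum_zero]
      linarith
    rw [hempty, measure_empty]
    exact zero_le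
  set ex := Real.exp (-(X * L / 64)) with hex
  have hex0 : 0 < ex := Real.exp_pos _
  have hTex : 1 ≤ T * ex := by
    have e1 : T = Real.exp L := (Real.exp_log hTpos).symm
    rw [e1, hex, ← Real.exp_add, Real.one_le_exp_iff]
    nlinarith
  -- bound for one zero
  set g : ℂ → ℝ := fun b => Real.pi / x * ex *
    (if T / 4 ≤ |b.im| ∧ |b.im| ≤ 8 * T then mu b * Real.exp (L / 4 * |b.re|) else 0) +
    256 * (mu b / (1 + (0 - b.im) ^ 2)) with hg
  have hg0 : ∀ b, 0 ≤ g b := by
    intro b
    have := mu_nonneg b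
    rw [hg]
    dsimp only
    split_ifs <;> positivity
  have hone : ∀ b : Zr, ∫⁻ t in Icc T (2 * T), ENNReal.ofReal (qt U X x t b) ≤
      ENNReal.ofReal (g b) := by
    intro b
    have hm := mu_nonneg (b : ℂ)
    have hw : 0 ≤ mu (b : ℂ) / (1 + (0 - (b : ℂ).im) ^ 2) := div_nonneg hm (by positivity)
    by_cases hXb : X / 4 < |(b : ℂ).re|
    swap
    · simp only [qt, if_neg hXb, ENNReal.ofReal_zero, lintegral_zero]
      exact zero_le
    simp only [qt, if_pos hXb]
    by_cases hc : T / 4 ≤ |(b : ℂ).im| ∧ |(b : ℂ).im| ≤ 8 * T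
    · refine (int_near hx _).trans (ENNReal.ofReal_le_ofReal ?_)
      rw [hg]
      dsimp only
      rw [if_pos hc]
      have e1 : Real.exp (U * |(b : ℂ).re|) ≤ ex * Real.exp (L / 4 * |(b : ℂ).re|) := by
        rw [hex, ← Real.exp_add]
        apply Real.exp_le_exp.2
        have h2 := abs_nonneg (b : ℂ).re
        have h3 : U * |(b : ℂ).re| ≤ L / 16 * |(b : ℂ).re| := mul_le_mul_of_nonneg_right hU h2
        have h4 : L * (X / 4) ≤ L * |(b : ℂ).re| :=
          mul_le_mul_of_nonneg_left hXb.le (by linarith)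
        have h5 : 0 ≤ X * L := by positivity
        nlinarith
      have e2 : Real.pi / x * (mu (b : ℂ) * Real.exp (U * |(b : ℂ).re|)) ≤
          Real.pi / x * ex * (mu (b : ℂ) * Real.exp (L / 4 * |(b : ℂ).re|)) := by
        have := Real.pi_pos
        calc Real.pi / x * (mu (b : ℂ) * Real.exp (U * |(b : ℂ).re|)) ≤
            Real.pi / x * (mu (b : ℂ) * (ex * Real.exp (L / 4 * |(b : ℂ).re|))) := by gcongr
          _ = _ := by ring
      linarith
    · have hc' : |(b : ℂ).im| < T / 4 ∨ 8 * T < |(b : ℂ).im| := by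
        by_contra h0
        rw [not_or, not_lt, not_lt] at h0
        exact hc h0
      have hmono : ∫⁻ t in Icc T (2 * T), ENNReal.ofReal (q U x t b) ≤
          ∫⁻ t in Icc T (2 * T), ENNReal.ofReal (q (L / 16) x t b) :=
        lintegral_mono fun t => ENNReal.ofReal_le_ofReal (q_mono hU x t b)
      refine (hmono.trans (int_far hT10 hx b.2 hc')).trans (ENNReal.ofReal_le_ofReal ?_)
      rw [hg]
      dsimp only
      rw [if_neg hc, mul_zero, zero_add]
  -- finite sums
  have hfin : ∀ s : Finset Zr, ∑ b ∈ s, g b ≤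
      Real.pi / x * ex * (C * T * L) + 256 * (C1 * Real.log (2 + |0|)) := by
    intro s
    have hs1 : ∑ b ∈ s, (if T / 4 ≤ |(b : ℂ).im| ∧ |(b : ℂ).im| ≤ 8 * T then
        mu b * Real.exp (L / 4 * |(b : ℂ).re|) else 0) ≤ C * T * L := by
      refine sum_sub (f := fun b => if T / 4 ≤ |b.im| ∧ |b.im| ≤ 8 * T then
        mu b * Real.exp (L / 4 * |b.re|) else 0) (fun B hB => ?_) s
      rw [← Finset.sum_filter]
      refine hE T hT _ fun b hb => ?_
      have := Finset.mem_filter.1 hb
      exact ⟨hB b this.1, this.2.1, this.2.2⟩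
    have hs2 := sum_sub (f := fun b => mu b / (1 + (0 - b.im) ^ 2)) (hZ 0) s
    rw [hg]
    dsimp only
    rw [Finset.sum_add_distrib, ← Finset.mul_sum, ← Finset.mul_sum]
    have hp : 0 ≤ Real.pi / x * ex := by have := Real.pi_pos; positivity
    have := mul_le_mul_of_nonneg_left hs1 hp
    linarith
  set A : ℝ := Real.pi / x * ex * (C * T * L) + 256 * (C1 * Real.log (2 + |0|)) with hA
  have htot : ∑' b : Zr, ENNReal.ofReal (g b) ≤ ENNReal.ofReal A := by
    rw [ENNReal.tsum_eq_iSup_sum]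
    refine iSup_le fun s => ?_
    rw [← ENNReal.ofReal_sum_of_nonneg (f := fun b : Zr => g b) fun b _ => hg0 b]
    exact ENNReal.ofReal_le_ofReal (hfin s)
  have hA2 : A ≤ (Real.pi * C + 256 * C1) * T * L * ex / x := by
    have hlog2 : Real.log (2 + |0|) ≤ 1 := by
      rw [abs_zero, add_zero]
      linarith [Real.log_two_lt_d9]
    have h5 : 1 ≤ T * ex * L / x := by
      rw [le_div_iff₀ hx]
      nlinarith
    have h6 : C1 * Real.log (2 + |0|) ≤ C1 * (T * ex * L / x) :=
      mul_le_mul_of_nonneg_left (hlog2.trans h5) hC1.le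
    have h7 : (Real.pi * C + 256 * C1) * T * L * ex / x =
        Real.pi / x * ex * (C * T * L) + 256 * (C1 * (T * ex * L / x)) := by
      field_simp
    rw [h7, hA]
    linarith
  -- Tonelli
  set F : ℝ → ENNReal := fun t => ∑' b : Zr, ENNReal.ofReal (qt U X x t b) with hF
  have hFm : Measurable F := Measurable.ennreal_tsum fun b => (qt_meas _ _ _ _).ennreal_ofReal
  have hFint : ∫⁻ t in Icc T (2 * T), F t ≤ ENNReal.ofReal A := by
    rw [hF, lintegral_tsum fun b => ((qt_meas _ _ _ _).ennreal_ofReal).aemeasurable]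
    exact (ENNReal.tsum_le_tsum hone).trans htot
  have hΛ' : ENNReal.ofReal Λ ≠ 0 := by
    rw [Ne, ENNReal.ofReal_eq_zero, not_le]
    exact hΛ
  have hmark := meas_ge_le_lintegral_div (μ := volume.restrict (Icc T (2 * T)))
    hFm.aemeasurable hΛ' ENNReal.ofReal_ne_top
  have hsub : volume {t : ℝ | t ∈ Icc T (2 * T) ∧ Λ < QF U X x t} ≤
      (volume.restrict (Icc T (2 * T))) {t | ENNReal.ofReal Λ ≤ F t} := by
    rw [Measure.restrict_apply (measurableSet_le measurable_const hFm)]
    apply measure_mono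
    rintro t ⟨ht1, ht2⟩
    exact ⟨(ENNReal.ofReal_le_ofReal ht2.le).trans (QF_le _ _ _ _), ht1⟩
  calc volume {t : ℝ | t ∈ Icc T (2 * T) ∧ Λ < QF U X x t}
      ≤ (∫⁻ t in Icc T (2 * T), F t) / ENNReal.ofReal Λ := hsub.trans hmark
    _ ≤ ENNReal.ofReal ((Real.pi * C + 256 * C1) * T * L * ex / x) / ENNReal.ofReal Λ :=
        ENNReal.div_le_div_right (hFint.trans (ENNReal.ofReal_le_ofReal hA2)) _
    _ = ENNReal.ofReal ((Real.pi * C + 256 * C1) * T * L * ex / (x * Λ)) := by
        rw [← ENNReal.ofReal_div_of_pos hΛ, div_div]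

end Pool.Agent.H670.HP
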